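import Pool.Agent.H35.CL.Stmt

/-!
# Cutting planes and resolution refutations of the usual unary clique formula are refutations (helper2)

The choice `u` gives the assignment `z (i, v) = (v = (i, u i))`.  It satisfies all clauses except those of two non-adjacent
vertices `(i, u i)` and `(j, u j)`.
-/

namespace Pool.Agent.H35.CL

open Finset

theorem resolution_cutting {X : Type} [Fintype X] [DecidableEq X] {F : Finset (X × Bool) → Prop} {S : ℕ}
    {C : Fin S → Finset (X × Bool)} (h : ResolutionOf F S C) : ∃ c b, CuttingPlanesOf F 2 S c b := by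
  classical
  -- the formula has a clause
  obtain ⟨s0, hs0⟩ := h.last
  have hF : ∃ E, F E := by
    have hS : 0 < S := s0.pos
    rcases h.step ⟨0, hS⟩ with hE | ⟨p, p', x, hp, _⟩
    · exact ⟨_, hE⟩
    · exact absurd hp (by simp [Fin.lt_def])
  obtain ⟨E0, hE0⟩ := hF
  let c : Fin S → X → ℝ := fun s x => (if (x, true) ∈ C s then 1 else 0) - (if (x, false) ∈ C s then 1 else 0)
  let b : Fin S → ℝ := fun s => 1 - ∑ x : X, (if (x, false) ∈ C s then (1 : ℝ) else 0)
  have key : ∀ s (z : X → Bool), b s ≤ (∑ x, if z x then c s x else 0) ↔ Sat z (C s) := by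
    intro s z
    have h1 : (∑ x, if z x then c s x else 0) + ∑ x : X, (if (x, false) ∈ C s then (1 : ℝ) else 0) =
        ∑ x : X, (if (x, z x) ∈ C s then (1 : ℝ) else 0) := by
      rw [← sum_add_distrib]
      refine sum_congr rfl fun x _ => ?_
      cases z x
      · simp
      · simp [c]
    have h2 : b s ≤ (∑ x, if z x then c s x else 0) ↔
        1 ≤ ∑ x : X, (if (x, z x) ∈ C s then (1 : ℝ) else 0) := by
      rw [← h1]
      simp only [b]
      constructor <;> intro h <;> linarith
    rw [h2]
    constructor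
    · intro h3
      by_contra hns
      have h4 : ∀ x, (x, z x) ∉ C s := fun x hx => hns ⟨_, hx, rfl⟩
      simp only [h4, if_false, sum_const_zero] at h3
      norm_num at h3
    · rintro ⟨⟨x, v⟩, hx, hxv⟩
      have h3 : (x, z x) ∈ C s := by
        rw [show z x = v from hxv]; exact hx
      calc (1 : ℝ) = (if (x, z x) ∈ C s then (1 : ℝ) else 0) := by rw [if_pos h3]
        _ ≤ _ := single_le_sum (f := fun x => if (x, z x) ∈ C s then (1 : ℝ) else 0)
            (fun y _ => by positivity) (mem_univ x)
  refine ⟨c, b, fun s => ?_, s0, fun z => ?_⟩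
  · rcases h.step s with hE | ⟨p, p', x, hp, hp', hsub⟩
    · exact ⟨∅, C s, by simp, by simp, hE, fun z hz _ => (key s z).2 hz⟩
    · refine ⟨{p, p'}, E0, card_le_two, ?_, hE0, fun z _ hz => ?_⟩
      · intro r hr
        rw [mem_insert, mem_singleton] at hr
        rcases hr with rfl | rfl
        · exact hp
        · exact hp'
      · rw [key]
        have h1 := (key p z).1 (hz p (by simp))
        have h2 := (key p' z).1 (hz p' (by simp))
        rcases hzx : z x with _ | _
        · obtain ⟨l, hl, hl2⟩ := h1
          refine ⟨l, hsub (mem_union_left _ (mem_erase.2 ⟨?_, hl⟩)), hl2⟩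
          rintro rfl
          rw [show z x = true from hl2] at hzx
          exact absurd hzx (by simp)
        · obtain ⟨l, hl, hl2⟩ := h2
          refine ⟨l, hsub (mem_union_right _ (mem_erase.2 ⟨?_, hl⟩)), hl2⟩
          rintro rfl
          rw [show z x = false from hl2] at hzx
          exact absurd hzx (by simp)
  · by_contra hcon
    obtain ⟨l, hl, _⟩ := (key s0 z).1 (not_lt.1 hcon)
    rw [hs0] at hl
    simp at hl

/-- A cutting planes refutation of the unary `K`-clique formula of a `K`-partite graph gives a refutation. -/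
theorem cutting_refutation {K N q S : ℕ} (h2 : 2 ≤ K) (G : SimpleGraph (Fin K × Fin N)) (A : Finset (Fin K))
    {c : Fin S → Fin K × (Fin K × Fin N) → ℝ} {b : Fin S → ℝ} (h : CuttingPlanesOf (KClique G K) q S c b) :
    ∃ f, Refutation G A q S f := by
  classical
  let z : (Fin K → Fin N) → Fin K × (Fin K × Fin N) → Bool := fun u x => decide (x.2 = (x.1, u x.1))
  have hz : ∀ u (d : Fin K × (Fin K × Fin N) → ℝ),
      (∑ x, if z u x then d x else 0) = ∑ i, d (i, (i, u i)) := by
    intro u d
    rw [Fintype.sum_prod_type]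
    refine sum_congr rfl fun i _ => ?_
    simp only [z, decide_eq_true_eq]
    rw [sum_ite_eq' univ (i, u i) (fun v => d (i, v))]
    simp
  let f : Fin S → (Fin K → Fin N) → ℝ := fun s u => (∑ i, c s (i, (i, u i))) - b s
  have hf : ∀ s u, f s u < 0 ↔ ¬ b s ≤ ∑ x, if z u x then c s x else 0 := by
    intro s u
    rw [hz, not_le]
    simp only [f]
    constructor <;> intro h <;> linarith
  have h01 : ∃ i j : Fin K, i ≠ j := ⟨⟨0, by omega⟩, ⟨1, by omega⟩, by simp⟩
  refine ⟨f, fun s => ?_, fun s => ?_, ?_⟩
  · refine ⟨fun u => ∑ i ∈ A, c s (i, (i, u i)), fun u => (∑ i ∈ Aᶜ, c s (i, (i, u i))) - b s, ?_, ?_, ?_⟩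
    · intro u u' huu
      exact sum_congr rfl fun i hi => by rw [huu i hi]
    · intro u u' huu
      simp only
      congr 1
      exact sum_congr rfl fun i hi => by rw [huu i (mem_compl.1 hi)]
    · intro u
      simp only [f]
      rw [← sum_add_sum_compl A]
      ring
  · obtain ⟨P, E, hP, hPs, hE, hstep⟩ := h.step s
    have hstep' : ∀ u, f s u < 0 → Sat (z u) E → ∃ p ∈ P, f p u < 0 := by
      intro u hu hsat
      by_contra hcon
      push Not at hcon
      refine (hf s u).1 hu (hstep (z u) hsat fun p hp => ?_)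
      by_contra hp'
      exact absurd ((hf p u).2 hp') (not_lt.2 (hcon p hp))
    obtain ⟨i0, j0, h0⟩ := h01
    cases hE with
    | chosen i =>
      refine ⟨P, i0, j0, hP, hPs, h0, fun u hu _ => hstep' u hu ⟨((i, (i, u i)), true), ?_, ?_⟩⟩
      · exact mem_image.2 ⟨(i, u i), mem_univ _, rfl⟩
      · simp [z]
    | single i v w hvw =>
      refine ⟨P, i0, j0, hP, hPs, h0, fun u hu _ => hstep' u hu ?_⟩
      by_cases hv : v = (i, u i)
      · refine ⟨((i, w), false), by simp, ?_⟩
        have : w ≠ (i, u i) := fun h => hvw (hv.trans h.symm)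
        simp [z, this]
      · exact ⟨((i, v), false), by simp, by simp [z, hv]⟩
    | edge i j v w hij hvw =>
      refine ⟨P, i, j, hP, hPs, hij, fun u hu hadj => hstep' u hu ?_⟩
      by_cases hv : v = (i, u i)
      · refine ⟨((j, w), false), by simp, ?_⟩
        have : w ≠ (j, u j) := fun h => hvw (by rw [hv, h]; exact hadj)
        simp [z, this]
      · exact ⟨((i, v), false), by simp, by simp [z, hv]⟩
  · obtain ⟨s, hs⟩ := h.last
    exact ⟨s, fun u => (hf s u).2 (not_le.2 (hs (z u)))⟩

end Pool.Agent.H35.CL
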