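import Pool.Agent.H35.CL.GrF

/-!
# The graph and the honest choices

PROOFS. exists_enum: an injection X → Fin M (Fintype.truncEquivFin / Fintype.equivFin, Fin.castLE) and its partial inverse.
exists_graph: e from exists_enum for X = Bool × Bool × Fin v (card 4 * v <= K), dec from exists_enum for X = Fin v → Fin n
(card n ^ v <= N), G := cliqueGraph g e dec.  enc f := a vertex with dec (enc f) = some f (choose).
u x y i := match e i with | some (false, c) => enc (fun k => x (cell c k)) | some (true, c) => enc (fun k => y (cell c k)) |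
none => a fixed vertex (0 < N since 0 < n ^ v <= N).  A := {i | exists c, e i = some (false, c)}.
Last clause for i ≠ j: e i = none or e j = none: left.  e i = some p, e j = some p': p.1 = p'.1: left (both tuples come from x, or
both from y).  p.1 ≠ p'.1 and p.2 ≠ p'.2: left.  p.1 ≠ p'.1, p.2 = p'.2 = c: right with c: if viol c (..) fails then Ok holds
(both orders of the players).
-/

namespace Pool.Agent.H35.CL

open Finset

theorem exists_enum {X : Type} [Fintype X] [DecidableEq X] (M : ℕ) (h : Fintype.card X ≤ M) :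
    ∃ e : Fin M → Option X, (∀ x, ∃ i, e i = some x) ∧ ∀ i j x, e i = some x → e j = some x → i = j := by
  classical
  obtain ⟨φ⟩ : Nonempty (X ↪ Fin M) := by
    rw [Function.Embedding.nonempty_iff_card_le, Fintype.card_fin]
    exact h
  refine ⟨fun i => if hx : ∃ x, φ x = i then some hx.choose else none, fun x => ⟨φ x, ?_⟩, ?_⟩
  · have hx : ∃ y, φ y = φ x := ⟨x, rfl⟩
    simp only
    rw [dif_pos hx]
    exact congrArg some (φ.injective hx.choose_spec)
  · have key : ∀ i x, (if hx : ∃ x, φ x = i then some hx.choose else none) = some x → φ x = i := by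
      intro i x h
      split_ifs at h with hx
      rw [← Option.some.inj h]
      exact hx.choose_spec
    intro i j x hi hj
    rw [← key i x hi, ← key j x hj]

theorem exists_graph {K N v n : ℕ} (h2 : 2 ≤ v) (hK : 4 * v ≤ K) (hn : 0 < n) (hN : n ^ v ≤ N)
    (g : Fin v × Fin v → Fin n → Fin n → Bool) :
    ∃ (G : SimpleGraph (Fin K × Fin N)) (A : Finset (Fin K))
      (u : (Fin v × Fin v → Fin n) → (Fin v × Fin v → Fin n) → Fin K → Fin N),
      (∀ i a b, ¬ G.Adj (i, a) (i, b)) ∧ G.CliqueFree K ∧ (∀ x y y', ∀ i ∈ A, u x y i = u x y' i) ∧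
      (∀ x x' y, ∀ i ∉ A, u x y i = u x' y i) ∧
      ∀ i j, i ≠ j → (∀ x y, G.Adj (i, u x y i) (j, u x y j)) ∨
        ∃ c, ∀ x y, ¬ G.Adj (i, u x y i) (j, u x y j) → viol c (fun e => g e (x e) (y e)) := by
  classical
  obtain ⟨e, he, he'⟩ := exists_enum (X := Bool × Bool × Fin v) K (by simp; omega)
  obtain ⟨dec, hdec, _⟩ := exists_enum (X := Fin v → Fin n) N (by simpa using hN)
  choose enc henc using hdec
  have hN0 : 0 < N := lt_of_lt_of_le (pow_pos hn v) hN
  -- the letters of a player
  let L : (Fin v × Fin v → Fin n) → (Fin v × Fin v → Fin n) → Bool → Fin v × Fin v → Fin n :=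
    fun x y pl => if pl then y else x
  let u : (Fin v × Fin v → Fin n) → (Fin v × Fin v → Fin n) → Fin K → Fin N := fun x y i =>
    match e i with
    | some p => enc (fun k => L x y p.1 (cell p.2 k))
    | none => ⟨0, hN0⟩
  have hus : ∀ x y i p, e i = some p → u x y i = enc (fun k => L x y p.1 (cell p.2 k)) := by
    intro x y i p h
    simp only [u, h]
  have hun : ∀ x y i, e i = none → u x y i = ⟨0, hN0⟩ := by
    intro x y i h
    simp only [u, h]
  refine ⟨cliqueGraph g e dec, univ.filter (fun i => ∃ c, e i = some (false, c)), u,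
    fun i a b h => h.1 rfl, cliqueGraph_free h2 g e he dec, ?_, ?_, ?_⟩
  · intro x y y' i hi
    obtain ⟨c, hc⟩ := (mem_filter.1 hi).2
    rw [hus _ _ _ _ hc, hus _ _ _ _ hc]
    rfl
  · intro x x' y i hi
    have hi' : ¬ ∃ c, e i = some (false, c) := fun h => hi (mem_filter.2 ⟨mem_univ _, h⟩)
    rcases hei : e i with _ | ⟨_ | _, c⟩
    · rw [hun _ _ _ hei, hun _ _ _ hei]
    · exact absurd ⟨c, hei⟩ hi'
    · rw [hus _ _ _ _ hei, hus _ _ _ _ hei]
      rfl
  · intro i j hij
    -- the edge in terms of Ok
    have hAdj : ∀ x y, (∀ p p', e i = some p → e j = some p' →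
        Ok g p p' (fun k => L x y p.1 (cell p.2 k)) (fun k => L x y p'.1 (cell p'.2 k))) →
        (cliqueGraph g e dec).Adj (i, u x y i) (j, u x y j) := by
      intro x y h
      refine ⟨hij, fun p p' hp hp' => ⟨_, _, ?_, ?_, h p p' hp hp'⟩⟩
      · rw [show ((i, u x y i) : Fin K × Fin N).2 = u x y i from rfl, hus _ _ _ _ hp, henc]
      · rw [show ((j, u x y j) : Fin K × Fin N).2 = u x y j from rfl, hus _ _ _ _ hp', henc]
    by_cases hc : ∃ p p', e i = some p ∧ e j = some p' ∧ p.1 ≠ p'.1 ∧ p.2 = p'.2
    · obtain ⟨p, p', hp, hp', h1, h3⟩ := hc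
      right
      refine ⟨p.2, fun x y hnot => ?_⟩
      by_contra hv
      apply hnot
      apply hAdj
      intro q q' hq hq'
      obtain rfl := Option.some.inj (hp.symm.trans hq)
      obtain rfl := Option.some.inj (hp'.symm.trans hq')
      unfold Ok
      rw [if_neg h1]
      intro _
      unfold viol at hv
      push Not at hv
      rw [← hv]
      congr 1
      funext k
      obtain ⟨b, pc⟩ := p
      obtain ⟨b', pc'⟩ := p'
      simp only at h3
      subst h3
      cases b
      · cases b'
        · exact absurd rfl h1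
        · rfl
      · cases b'
        · rfl
        · exact absurd rfl h1
    · left
      intro x y
      apply hAdj
      intro p p' hp hp'
      unfold Ok
      by_cases h1 : p.1 = p'.1
      · rw [if_pos h1]
        intro k k' hk
        show L x y p.1 (cell p.2 k) = L x y p'.1 (cell p'.2 k')
        rw [h1, hk]
      · rw [if_neg h1]
        intro h3
        exact absurd ⟨p, p', hp, hp', h1, h3⟩ hc

end Pool.Agent.H35.CL
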