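import Pool.Agent.H35.CL.NuD

/-!
MP_ba3460_UC : the inequality for the gadget, the upper bound of the parameter hh.
-/

namespace Pool.Agent.H35.CL

open Finset

theorem add_one_pow_ge (a k : ℕ) : a ^ (k + 1) + (k + 1) * a ^ k ≤ (a + 1) ^ (k + 1) := by
  induction k with
  | zero => simp
  | succ k ih =>
    calc a ^ (k + 1 + 1) + (k + 1 + 1) * a ^ (k + 1)
        ≤ (a ^ (k + 1) + (k + 1) * a ^ k) * (a + 1) := by
          have : (a ^ (k + 1) + (k + 1) * a ^ k) * (a + 1) =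
              a ^ (k + 1 + 1) + (k + 1 + 1) * a ^ (k + 1) + (k + 1) * a ^ k := by ring
          omega
      _ ≤ (a + 1) ^ (k + 1) * (a + 1) := Nat.mul_le_mul_right _ ih
      _ = (a + 1) ^ (k + 1 + 1) := by ring

theorem half_pow (m : ℕ) (hm : 1 ≤ m) : 2 * (2 ^ m - 1) ^ (2 ^ m) ≤ (2 ^ m) ^ (2 ^ m) := by
  have h2 : 2 ≤ 2 ^ m := by
    calc 2 = 2 ^ 1 := by norm_num
      _ ≤ 2 ^ m := Nat.pow_le_pow_right (by norm_num) hm
  obtain ⟨k, hk⟩ : ∃ k, 2 ^ m = k + 1 := ⟨2 ^ m - 1, by omega⟩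
  rw [hk]
  have h1 := add_one_pow_ge k k
  have h3 : k + 1 - 1 = k := by omega
  rw [h3]
  have h4 : k ^ (k + 1) ≤ (k + 1) * k ^ k := by
    rw [pow_succ, mul_comm]
    exact Nat.mul_le_mul_right _ (by omega)
  omega

theorem gad_ineq {m n l : ℕ} (hm : 1 ≤ m) (hn : n ≤ 2 ^ l) :
    2 * (2 ^ m * (n ^ m) ^ tt m l * (n ^ m) ^ tt m l * (2 ^ m) ^ tt m l) * (2 ^ m - 1) ^ (tt m l * tt m l) <
      (2 ^ m) ^ (tt m l * tt m l) := by
  have h2 : 2 ≤ 2 ^ m := by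
    calc 2 = 2 ^ 1 := by norm_num
      _ ≤ 2 ^ m := Nat.pow_le_pow_right (by norm_num) hm
  obtain ⟨t, ht⟩ : ∃ t, t = tt m l := ⟨_, rfl⟩
  obtain ⟨u, hu⟩ : ∃ u, u = 2 * m * l + 2 * m + 2 := ⟨_, rfl⟩
  have htu : t = 2 ^ m * u := by rw [ht, hu]; rfl
  have ht1 : 1 ≤ t := by
    rw [htu]
    have : 1 ≤ u := by omega
    exact Nat.one_le_iff_ne_zero.2 (by positivity)
  rw [← ht]
  have htt : t * t = 2 ^ m * (u * t) := by
    calc t * t = (2 ^ m * u) * t := by rw [← htu]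
      _ = 2 ^ m * (u * t) := by ring
  have h3 : 2 ^ (u * t) * (2 ^ m - 1) ^ (t * t) ≤ (2 ^ m) ^ (t * t) := by
    rw [htt, pow_mul (2 ^ m) (2 ^ m) (u * t), pow_mul (2 ^ m - 1) (2 ^ m) (u * t), ← mul_pow]
    exact Nat.pow_le_pow_left (half_pow m hm) _
  have hpos : 0 < (2 ^ m - 1) ^ (t * t) := by
    apply Nat.pow_pos; omega
  have h4 : (n ^ m) ^ t ≤ 2 ^ (m * l * t) := by
    calc (n ^ m) ^ t ≤ ((2 ^ l) ^ m) ^ t := Nat.pow_le_pow_left (Nat.pow_le_pow_left hn _) _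
      _ = 2 ^ (m * l * t) := by rw [← pow_mul, ← pow_mul]; congr 1; ring
  have h5 : 2 * (2 ^ m * (n ^ m) ^ t * (n ^ m) ^ t * (2 ^ m) ^ t) < 2 ^ (u * t) := by
    calc 2 * (2 ^ m * (n ^ m) ^ t * (n ^ m) ^ t * (2 ^ m) ^ t)
        ≤ 2 * (2 ^ m * 2 ^ (m * l * t) * 2 ^ (m * l * t) * (2 ^ m) ^ t) := by
          apply Nat.mul_le_mul_left
          apply Nat.mul_le_mul_right
          apply Nat.mul_le_mul _ h4
          exact Nat.mul_le_mul_left _ h4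
      _ = 2 ^ (1 + m + m * l * t + m * l * t + m * t) := by
          rw [← pow_mul]
          ring
      _ < 2 ^ (u * t) := by
          apply Nat.pow_lt_pow_right (by norm_num)
          rw [hu]
          have e1 : m ≤ m * t := Nat.le_mul_of_pos_right _ ht1
          have e2 : (2 * m * l + 2 * m + 2) * t = m * l * t + m * l * t + m * t + m * t + 2 * t := by ring
          rw [e2]
          omega
  calc 2 * (2 ^ m * (n ^ m) ^ t * (n ^ m) ^ t * (2 ^ m) ^ t) * (2 ^ m - 1) ^ (t * t)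
      < 2 ^ (u * t) * (2 ^ m - 1) ^ (t * t) := Nat.mul_lt_mul_of_pos_right h5 hpos
    _ ≤ (2 ^ m) ^ (t * t) := h3

theorem hh_le {m q l r : ℕ} (hm : 1 ≤ m) (hq : 1 ≤ q) (hl : 1 ≤ l) (hr : l ≤ 2 ^ r) :
    hh m q (tt m l) ≤ q * 2 ^ (30 * m * (m + r + 1)) := by
  have hm2 : m ≤ 2 ^ m := Nat.lt_two_pow_self.le
  have one_le : ∀ k : ℕ, 1 ≤ q * 2 ^ k := fun k => Nat.one_le_iff_ne_zero.2 (by positivity)
  -- t
  have ht : tt m l ≤ 2 ^ (2 * m + r + 3) := by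
    unfold tt
    have h1 : 2 * m * l + 2 * m + 2 ≤ 8 * (m * l) := by
      have e1 : m ≤ m * l := Nat.le_mul_of_pos_right _ hl
      have e2 : 2 * m * l = 2 * (m * l) := by ring
      omega
    calc 2 ^ m * (2 * m * l + 2 * m + 2) ≤ 2 ^ m * (8 * (m * l)) := Nat.mul_le_mul_left _ h1
      _ ≤ 2 ^ m * (8 * (2 ^ m * 2 ^ r)) :=
          Nat.mul_le_mul_left _ (Nat.mul_le_mul_left _ (Nat.mul_le_mul hm2 hr))
      _ = 2 ^ (2 * m + r + 3) := by ring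
  have ht1 : 1 ≤ tt m l := by
    unfold tt
    exact Nat.one_le_iff_ne_zero.2 (by positivity)
  generalize tt m l = t at ht ht1 ⊢
  unfold hh
  have hmt : m * t ≤ 2 ^ (3 * m + r + 3) := by
    calc m * t ≤ 2 ^ m * 2 ^ (2 * m + r + 3) := Nat.mul_le_mul hm2 ht
      _ = 2 ^ (3 * m + r + 3) := by ring
  have hmt1 : 1 ≤ m * t := Nat.one_le_iff_ne_zero.2 (by positivity)
  have h1 : 2 * m * t + 1 ≤ 2 ^ (3 * m + r + 5) := by
    calc 2 * m * t + 1 ≤ 4 * (m * t) := by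
          have : 2 * m * t = 2 * (m * t) := by ring
          omega
      _ ≤ 4 * 2 ^ (3 * m + r + 3) := Nat.mul_le_mul_left _ hmt
      _ = 2 ^ (3 * m + r + 5) := by ring
  have h2 : (2 * m * t + 1) ^ m ≤ 2 ^ ((3 * m + r + 5) * m) := by
    rw [pow_mul]
    exact Nat.pow_le_pow_left h1 _
  have h3 : t * m + 1 ≤ 2 ^ (3 * m + r + 4) := by
    calc t * m + 1 ≤ 2 * (m * t) := by
          have : t * m = m * t := by ring
          omega
      _ ≤ 2 * 2 ^ (3 * m + r + 3) := Nat.mul_le_mul_left _ hmt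
      _ = 2 ^ (3 * m + r + 4) := by ring
  have h4 : m + 8 * t * q * (2 ^ m * (t * m + 1)) ≤ q * 2 ^ (6 * m + 2 * r + 11) := by
    have e1 : 8 * t * q * (2 ^ m * (t * m + 1)) ≤ q * 2 ^ (6 * m + 2 * r + 10) := by
      calc 8 * t * q * (2 ^ m * (t * m + 1)) ≤ 8 * 2 ^ (2 * m + r + 3) * q * (2 ^ m * 2 ^ (3 * m + r + 4)) :=
            Nat.mul_le_mul (Nat.mul_le_mul_right _ (Nat.mul_le_mul_left _ ht)) (Nat.mul_le_mul_left _ h3)
        _ = q * 2 ^ (6 * m + 2 * r + 10) := by ring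
    have e2 : m ≤ q * 2 ^ (6 * m + 2 * r + 10) := by
      calc m ≤ 2 ^ m := hm2
        _ ≤ 2 ^ (6 * m + 2 * r + 10) := Nat.pow_le_pow_right (by norm_num) (by omega)
        _ ≤ q * 2 ^ (6 * m + 2 * r + 10) := Nat.le_mul_of_pos_left _ hq
    calc m + 8 * t * q * (2 ^ m * (t * m + 1)) ≤ q * 2 ^ (6 * m + 2 * r + 10) + q * 2 ^ (6 * m + 2 * r + 10) :=
          Nat.add_le_add e2 e1
      _ = q * 2 ^ (6 * m + 2 * r + 11) := by ring
  have h5 : t * (m + 8 * t * q * (2 ^ m * (t * m + 1))) + 1 ≤ q * 2 ^ (8 * m + 3 * r + 15) := by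
    have e1 : t * (m + 8 * t * q * (2 ^ m * (t * m + 1))) ≤ q * 2 ^ (8 * m + 3 * r + 14) := by
      calc t * (m + 8 * t * q * (2 ^ m * (t * m + 1))) ≤ 2 ^ (2 * m + r + 3) * (q * 2 ^ (6 * m + 2 * r + 11)) :=
            Nat.mul_le_mul ht h4
        _ = q * 2 ^ (8 * m + 3 * r + 14) := by ring
    calc t * (m + 8 * t * q * (2 ^ m * (t * m + 1))) + 1
        ≤ q * 2 ^ (8 * m + 3 * r + 14) + q * 2 ^ (8 * m + 3 * r + 14) := Nat.add_le_add e1 (one_le _)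
      _ = q * 2 ^ (8 * m + 3 * r + 15) := by ring
  have h6 : 2 ^ m * (2 * m * t + 1) ^ m * (t * (m + 8 * t * q * (2 ^ m * (t * m + 1))) + 1) ≤
      q * 2 ^ (m + (3 * m + r + 5) * m + (8 * m + 3 * r + 15)) := by
    calc 2 ^ m * (2 * m * t + 1) ^ m * (t * (m + 8 * t * q * (2 ^ m * (t * m + 1))) + 1)
        ≤ 2 ^ m * 2 ^ ((3 * m + r + 5) * m) * (q * 2 ^ (8 * m + 3 * r + 15)) :=
          Nat.mul_le_mul (Nat.mul_le_mul_left _ h2) h5
      _ = q * 2 ^ (m + (3 * m + r + 5) * m + (8 * m + 3 * r + 15)) := by rw [pow_add, pow_add]; ring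
  calc 2 ^ m * (2 * m * t + 1) ^ m * (t * (m + 8 * t * q * (2 ^ m * (t * m + 1))) + 1) + 1
      ≤ q * 2 ^ (m + (3 * m + r + 5) * m + (8 * m + 3 * r + 15)) +
        q * 2 ^ (m + (3 * m + r + 5) * m + (8 * m + 3 * r + 15)) := Nat.add_le_add h6 (one_le _)
    _ = q * 2 ^ (m + (3 * m + r + 5) * m + (8 * m + 3 * r + 15) + 1) := by ring
    _ ≤ q * 2 ^ (30 * m * (m + r + 1)) := by
        apply Nat.mul_le_mul_left
        apply Nat.pow_le_pow_right (by norm_num)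
        have e1 : m ≤ m * m := Nat.le_mul_of_pos_right _ hm
        have e2 : r ≤ m * r := Nat.le_mul_of_pos_left _ hm
        have e3 : m + (3 * m + r + 5) * m + (8 * m + 3 * r + 15) + 1
            = 3 * (m * m) + m * r + 14 * m + 3 * r + 16 := by ring
        have e4 : 30 * m * (m + r + 1) = 30 * (m * m) + 30 * (m * r) + 30 * m := by ring
        rw [e3, e4]
        omega

end Pool.Agent.H35.CL
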