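import Pool.Agent.H35.CL.NuG

/-!
MP_ba3460_UC : numerics (2 d <= w, exponent K/25, fan-in q with q^(5K) <= N).
-/

namespace Pool.Agent.H35.CL

open Finset

theorem sq_le_two_pow (k : ℕ) : (k + 1) ^ 2 ≤ 3 * 2 ^ k := by
  have h : ∀ j, (j + 2 + 1) ^ 2 ≤ 3 * 2 ^ (j + 2) := by
    intro j
    induction j with
    | zero => norm_num
    | succ j ih =>
      have e1 : 3 * 2 ^ (j + 1 + 2) = 2 * (3 * 2 ^ (j + 2)) := by ring
      rw [e1]
      calc (j + 1 + 2 + 1) ^ 2 ≤ (j + 1 + 2 + 1) ^ 2 + (j ^ 2 + 4 * j + 2) := Nat.le_add_right _ _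
        _ = 2 * (j + 2 + 1) ^ 2 := by ring
        _ ≤ 2 * (3 * 2 ^ (j + 2)) := Nat.mul_le_mul_left _ ih
  match k with
  | 0 => norm_num
  | 1 => norm_num
  | (j + 2) => exact h j

theorem numerics (K N : ℕ) (hK : 32 ≤ K) (hN : 2 ^ (40000 * K ^ 6) ≤ N) :
    ∃ n : ℕ, 0 < n ∧ n ^ (K / 4) ≤ N ∧ n ≤ 2 ^ (Nat.log 2 N + 1) ∧ ∀ q, 0 < q → q ^ (5 * K) ≤ N →
      ∀ S : ℕ, n ^ ((K / 4 * (K / 4 - 2) / 2) / 2 + 1) ≤
        4 * S * hh (K / 4 * (K / 4)) q (tt (K / 4 * (K / 4)) (Nat.log 2 N + 1)) ^ ((K / 4 * (K / 4 - 2) / 2) / 2 + 1) →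
        (N : ℝ) ^ ((K : ℝ) / 25) ≤ S := by
  obtain ⟨v, hv⟩ : ∃ v, v = K / 4 := ⟨_, rfl⟩
  have hv8 : 8 ≤ v := by omega
  have hKv : 4 * v ≤ K := by omega
  have hKv3 : K ≤ 4 * v + 3 := by omega
  rw [← hv]
  obtain ⟨X, hX⟩ : ∃ X, X = Nat.log 2 N := ⟨_, rfl⟩
  rw [← hX]
  have hN0 : N ≠ 0 := by
    have : 0 < 2 ^ (40000 * K ^ 6) := by positivity
    omega
  have hXN : 2 ^ X ≤ N := by rw [hX]; exact Nat.pow_log_le_self 2 hN0
  have hNX : N < 2 ^ (X + 1) := by rw [hX]; exact Nat.lt_pow_succ_log_self (by norm_num) N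
  have hX1 : 40000 * K ^ 6 ≤ X := by rw [hX]; exact Nat.le_log_of_pow_le (by norm_num) hN
  have hKv6 : 4096 * v ^ 6 ≤ K ^ 6 := by
    calc 4096 * v ^ 6 = (4 * v) ^ 6 := by ring
      _ ≤ K ^ 6 := Nat.pow_le_pow_left hKv 6
  have hXv : 163840000 * v ^ 6 ≤ X := by omega
  have hv1 : 1 ≤ v := by omega
  have hv6 : 1 ≤ v ^ 6 := Nat.one_le_pow _ _ hv1
  have hXpos : 1 ≤ X := by omega
  -- the number n
  obtain ⟨e, he⟩ : ∃ e, e = X / v := ⟨_, rfl⟩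
  have hev : e * v ≤ X := by rw [he]; exact Nat.div_mul_le_self _ _
  have hev2 : X < v * (e + 1) := by
    have := Nat.lt_div_mul_add (a := X) (b := v) (by omega)
    rw [he]
    calc X < X / v * v + v := this
      _ = v * (X / v + 1) := by ring
  refine ⟨2 ^ e, by positivity, ?_, ?_, ?_⟩
  · rw [← pow_mul]
    exact (Nat.pow_le_pow_right (by norm_num) hev).trans hXN
  · apply Nat.pow_le_pow_right (by norm_num)
    have : e ≤ X := by rw [he]; exact Nat.div_le_self _ _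
    omega
  intro q hq0 hq
  -- the fan-in
  obtain ⟨p, hp⟩ : ∃ p, p = Nat.log 2 q := ⟨_, rfl⟩
  have hp1 : 2 ^ p ≤ q := by rw [hp]; exact Nat.pow_log_le_self 2 (by omega)
  have hp2 : q ≤ 2 ^ (p + 1) := by rw [hp]; exact (Nat.lt_pow_succ_log_self (by norm_num) q).le
  have hpX : 20 * (v * p) ≤ X := by
    have h1 : 2 ^ (p * (5 * K)) ≤ N := by
      rw [pow_mul]
      exact (Nat.pow_le_pow_left hp1 _).trans hq
    have h2 : p * (5 * K) ≤ X := by rw [hX]; exact Nat.le_log_of_pow_le (by norm_num) h1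
    calc 20 * (v * p) = p * (5 * (4 * v)) := by ring
      _ ≤ p * (5 * K) := Nat.mul_le_mul_left _ (Nat.mul_le_mul_left _ hKv)
      _ ≤ X := h2
  -- r
  obtain ⟨r0, hr0⟩ : ∃ r0, r0 = Nat.log 2 (X + 1) := ⟨_, rfl⟩
  have hr1 : X + 1 ≤ 2 ^ (r0 + 1) := by
    rw [hr0]; exact (Nat.lt_pow_succ_log_self (by norm_num) (X + 1)).le
  have hr2 : 2 ^ r0 ≤ X + 1 := by rw [hr0]; exact Nat.pow_log_le_self 2 (by omega)
  have hr3 : (r0 + 1) ^ 2 ≤ 6 * X := by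
    have := sq_le_two_pow r0
    omega
  obtain ⟨r, hr⟩ : ∃ r, r = r0 + 1 := ⟨_, rfl⟩
  rw [← hr] at hr1 hr3
  have hm1 : 1 ≤ v * v := Nat.one_le_iff_ne_zero.2 (by positivity)
  have hhle0 := hh_le (m := v * v) (q := q) (l := X + 1) (r := r) hm1 hq0 (by omega) hr1
  obtain ⟨Λ, hΛ⟩ : ∃ Λ, Λ = 30 * (v * v) * (v * v + r + 1) := ⟨_, rfl⟩
  rw [← hΛ] at hhle0
  have hhle : hh (v * v) q (tt (v * v) (X + 1)) ≤ 2 ^ (Λ + p + 1) := by
    refine hhle0.trans ?_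
    calc q * 2 ^ Λ ≤ 2 ^ (p + 1) * 2 ^ Λ := Nat.mul_le_mul_right _ hp2
      _ = 2 ^ (Λ + p + 1) := by ring
  -- the main inequality
  have hA : 4800 * (v ^ 3 * r) ≤ X := by
    rw [← Nat.pow_le_pow_iff_left (n := 2) (by norm_num)]
    calc (4800 * (v ^ 3 * r)) ^ 2 = 23040000 * (v ^ 6 * r ^ 2) := by ring
      _ ≤ 23040000 * (v ^ 6 * (6 * X)) := Nat.mul_le_mul_left _ (Nat.mul_le_mul_left _ hr3)
      _ = (138240000 * v ^ 6) * X := by ring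
      _ ≤ X * X := Nat.mul_le_mul_right _ (by omega)
      _ = X ^ 2 := by ring
  have hmain : 80 + 80 * (v * (Λ + 2)) ≤ X + 1 := by
    have e1 : 80 * (v * (Λ + 2)) = 2400 * v ^ 5 + 2400 * (v ^ 3 * r) + 2400 * v ^ 3 + 160 * v := by
      rw [hΛ]; ring
    have e2 : v ^ 5 ≤ v ^ 6 := Nat.pow_le_pow_right hv1 (by norm_num)
    have e3 : v ^ 3 ≤ v ^ 6 := Nat.pow_le_pow_right hv1 (by norm_num)
    have e4 : v ≤ v ^ 6 := by
      calc v = v ^ 1 := (pow_one v).symm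
        _ ≤ v ^ 6 := Nat.pow_le_pow_right hv1 (by norm_num)
    rw [e1]
    omega
  intro S hS
  obtain ⟨d1, hd1⟩ : ∃ d1, d1 = (v * (v - 2) / 2) / 2 + 1 := ⟨_, rfl⟩
  rw [← hd1] at hS
  have hd4 : v * (v - 2) ≤ 4 * d1 := by omega
  have hΛe : Λ + p + 1 ≤ e := by
    rw [he, Nat.le_div_iff_mul_le (by omega)]
    have e1 : (Λ + p + 1) * v = v * (Λ + 2) + v * p - v := by
      have : v * (Λ + 2) + v * p = (Λ + p + 1) * v + v := by ring
      omega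
    rw [e1]
    omega
  obtain ⟨f, hf⟩ : ∃ f, e = (Λ + p + 1) + f := ⟨e - (Λ + p + 1), by omega⟩
  have hSf : 2 ^ (f * d1) ≤ 4 * S := by
    have h1 : (2 ^ e) ^ d1 ≤ 4 * S * (2 ^ (Λ + p + 1)) ^ d1 :=
      hS.trans (Nat.mul_le_mul_left _ (Nat.pow_le_pow_left hhle _))
    rw [hf] at h1
    have h2 : (2 ^ (Λ + p + 1)) ^ d1 * 2 ^ (f * d1) ≤ (2 ^ (Λ + p + 1)) ^ d1 * (4 * S) := by
      calc (2 ^ (Λ + p + 1)) ^ d1 * 2 ^ (f * d1) = (2 ^ (Λ + p + 1 + f)) ^ d1 := by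
            rw [pow_add 2 (Λ + p + 1) f, mul_pow, ← pow_mul 2 f d1]
        _ ≤ 4 * S * (2 ^ (Λ + p + 1)) ^ d1 := h1
        _ = (2 ^ (Λ + p + 1)) ^ d1 * (4 * S) := by ring
    exact Nat.le_of_mul_le_mul_left h2 (by positivity)
  -- T : 25 f d1 >= (X+1) K + 50
  have hT : (X + 1) * K + 50 ≤ 25 * (f * d1) := by
    obtain ⟨u, hu⟩ : ∃ u, v = u + 8 := ⟨v - 8, by omega⟩
    have hvf : X + 1 ≤ v * f + v * (Λ + 2) + v * p := by
      have : v * (e + 1) = v * f + v * (Λ + 2) + v * p := by rw [hf]; ring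
      omega
    have h1 : 4 * ((X + 1) * K + 50) ≤ 25 * ((v - 2) * (v * f)) := by
      have h2 : (X + 1) * K ≤ (X + 1) * (4 * v + 3) := Nat.mul_le_mul_left _ hKv3
      have h3 : v - 2 = u + 6 := by omega
      rw [h3]
      have h4 : (u + 6) * (X + 1) ≤ (u + 6) * (v * f) + (u + 6) * (v * (Λ + 2)) + (u + 6) * (v * p) := by
        rw [← Nat.mul_add, ← Nat.mul_add]
        exact Nat.mul_le_mul_left _ hvf
      have h5 : v * (80 + 80 * (v * (Λ + 2))) ≤ v * (X + 1) := Nat.mul_le_mul_left _ hmain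
      have h6 : (u + 6) * (v * (Λ + 2)) ≤ v * (v * (Λ + 2)) := Nat.mul_le_mul_right _ (by omega)
      have h7 : v * (80 + 80 * (v * (Λ + 2))) = 80 * v + 80 * (v * (v * (Λ + 2))) := by ring
      have h8 : (X + 1) * (4 * v + 3) = 4 * (u * (X + 1)) + 35 * (X + 1) := by rw [hu]; ring
      have h9 : (u + 6) * (X + 1) = u * (X + 1) + 6 * (X + 1) := by ring
      have h10 : v * (X + 1) = u * (X + 1) + 8 * (X + 1) := by rw [hu]; ring
      have h11 : 20 * ((u + 6) * (v * p)) ≤ (u + 6) * (X + 1) := by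
        calc 20 * ((u + 6) * (v * p)) = (u + 6) * (20 * (v * p)) := by ring
          _ ≤ (u + 6) * (X + 1) := Nat.mul_le_mul_left _ (by omega)
      generalize u * (X + 1) = P at h8 h9 h10
      generalize (u + 6) * (v * f) = Q at h4 ⊢
      generalize (u + 6) * (v * (Λ + 2)) = R at h4 h6
      generalize (u + 6) * (v * p) = R' at h4 h11
      generalize v * (v * (Λ + 2)) = W at h6 h7
      omega
    have h2 : 25 * ((v - 2) * (v * f)) ≤ 4 * (25 * (f * d1)) := by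
      calc 25 * ((v - 2) * (v * f)) = 25 * (f * (v * (v - 2))) := by ring
        _ ≤ 25 * (f * (4 * d1)) := Nat.mul_le_mul_left _ (Nat.mul_le_mul_left _ hd4)
        _ = 4 * (25 * (f * d1)) := by ring
    omega
  -- conclusion
  have hR : ((X : ℝ) + 1) * K / 25 ≤ (f * d1 : ℕ) - 2 := by
    have h1 : (((X + 1) * K + 50 : ℕ) : ℝ) ≤ ((25 * (f * d1) : ℕ) : ℝ) := by exact_mod_cast hT
    push_cast at h1 ⊢
    linarith
  have h2pos : (0 : ℝ) < 2 := by norm_num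
  have hS2 : (2 : ℝ) ^ ((f * d1 : ℕ) - 2 : ℝ) ≤ S := by
    rw [Real.rpow_sub h2pos, Real.rpow_natCast]
    have h1 : (((2 ^ (f * d1) : ℕ)) : ℝ) ≤ ((4 * S : ℕ) : ℝ) := by exact_mod_cast hSf
    push_cast at h1
    have h3 : (2 : ℝ) ^ (2 : ℝ) = 4 := by
      rw [show (2 : ℝ) = ((2 : ℕ) : ℝ) by norm_num, Real.rpow_natCast]
      norm_num
    rw [h3, div_le_iff₀ (by norm_num)]
    linarith
  calc (N : ℝ) ^ ((K : ℝ) / 25) ≤ ((2 : ℝ) ^ ((X : ℝ) + 1)) ^ ((K : ℝ) / 25) := by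
        apply Real.rpow_le_rpow (Nat.cast_nonneg _) _ (by positivity)
        have h1 : (N : ℝ) ≤ ((2 ^ (X + 1) : ℕ) : ℝ) := by exact_mod_cast hNX.le
        rw [show ((X : ℝ) + 1) = ((X + 1 : ℕ) : ℝ) by push_cast; ring, Real.rpow_natCast]
        push_cast at h1
        exact h1
    _ = (2 : ℝ) ^ (((X : ℝ) + 1) * K / 25) := by
        rw [← Real.rpow_mul h2pos.le]
        congr 1
        ring
    _ ≤ (2 : ℝ) ^ ((f * d1 : ℕ) - 2 : ℝ) := Real.rpow_le_rpow_of_exponent_le (by norm_num) hR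
    _ ≤ S := hS2

end Pool.Agent.H35.CL
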