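import Pool.Agent.H35.CL.ReL
import Pool.Agent.H35.CL.Uny
import Pool.Agent.H35.CL.GrE
import Pool.Agent.H96.CL.Gad
import Pool.Agent.H35.CL.NuG
import Pool.Agent.H35.CL.Num

/-!
# The theorem
-/

namespace Pool.Agent.H35.CL

open Finset

theorem Refutation.mono {K N : ℕ} {G : SimpleGraph (Fin K × Fin N)} {A : Finset (Fin K)} {q q' S : ℕ} (hq : q ≤ q')
    {f : Fin S → (Fin K → Fin N) → ℝ} (h : Refutation G A q S f) : Refutation G A q' S f where
  split := h.split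
  step := fun s => by
    obtain ⟨P, i, j, h1, h2, h3, h4⟩ := h.step s
    exact ⟨P, i, j, h1.trans hq, h2, h3, h4⟩
  last := h.last

theorem unary_clique (K N : ℕ) (hK : 32 ≤ K) (hN : 2 ^ (40000 * K ^ 6) ≤ N) :
    ∃ (G : SimpleGraph (Fin K × Fin N)) (A : Finset (Fin K)), (∀ i a b, ¬ G.Adj (i, a) (i, b)) ∧ G.CliqueFree K ∧
      (∀ S C, ResolutionOf (KClique G K) S C → (N : ℝ) ^ ((K : ℝ) / 25) ≤ S) ∧
      (∀ q S c b, q ^ (5 * K) ≤ N → CuttingPlanesOf (KClique G K) q S c b → (N : ℝ) ^ ((K : ℝ) / 25) ≤ S) ∧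
      ∀ q S f, q ^ (5 * K) ≤ N → Refutation G A q S f → (N : ℝ) ^ ((K : ℝ) / 25) ≤ S := by
  obtain ⟨n, hn0, hn, hn2, hq⟩ := numerics K N hK hN
  set v := K / 4 with hv
  have hv8 : 8 ≤ v := by omega
  set m := v * v with hm
  have hm1 : 1 ≤ m := by rw [hm]; nlinarith
  set l := Nat.log 2 N + 1 with hl
  have hNpos : 1 ≤ N := le_trans Nat.one_le_two_pow hN
  have hcard : Fintype.card (Fin v × Fin v) = m := by simp [hm]
  obtain ⟨g, hg, hg'⟩ := exists_gadget (ι := Fin v × Fin v) (α := Fin n) (tt m l) (by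
    rw [hcard, Fintype.card_fin]
    exact gad_ineq hm1 hn2)
  obtain ⟨G, A, u, h1, h2, h3, h4, h5⟩ := exists_graph (K := K) (N := N) (v := v) (n := n) (by omega) (by omega) hn0 hn g
  have main : ∀ q S f, q ^ (5 * K) ≤ N → Refutation G A q S f → (N : ℝ) ^ ((K : ℝ) / 25) ≤ S := by
    have main0 : ∀ q S f, 0 < q → q ^ (5 * K) ≤ N → Refutation G A q S f → (N : ℝ) ^ ((K : ℝ) / 25) ≤ S := by
      intro q S f hq0 hqN hf
      refine hq q hq0 hqN S ?_
      exact refutation_lower (w := v * (v - 2) / 2) (t := tt m l) (h₀ := hh m q (tt m l)) (by omega) hn0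
        (Nat.mul_div_le _ _) (Nat.mul_div_le _ _) (by unfold hh; exact Nat.lt_succ_self _) hq0 g hg hg' G A u h3 h4 h5 hf
    intro q S f hqN hf
    rcases Nat.eq_zero_or_pos q with h0 | h0
    · subst h0
      exact main0 1 S f Nat.one_pos (by rw [one_pow]; exact hNpos) (hf.mono (Nat.zero_le 1))
    · exact main0 q S f h0 hqN hf
  have mainC : ∀ q S c b, q ^ (5 * K) ≤ N → CuttingPlanesOf (KClique G K) q S c b → (N : ℝ) ^ ((K : ℝ) / 25) ≤ S := by
    intro q S c b hqN hc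
    obtain ⟨f, hf⟩ := cutting_refutation (by omega) G A hc
    exact main q S f hqN hf
  refine ⟨G, A, h1, h2, fun S C hR => ?_, mainC, main⟩
  obtain ⟨c, b, hc⟩ := resolution_cutting hR
  refine mainC 2 S c b ?_ hc
  refine le_trans (Nat.pow_le_pow_right (by norm_num) ?_) hN
  calc 5 * K = 5 * K ^ 1 := by rw [pow_one]
    _ ≤ 40000 * K ^ 6 := Nat.mul_le_mul (by norm_num) (Nat.pow_le_pow_right (by omega) (by norm_num))

end Pool.Agent.H35.CL
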