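import Pool.Agent.H35.CL.Mat

/-!
# The graph (reduction in Section 0 of /team-store/H35_CLIQUE.md)

Parts: a map e : Fin K → Option (Bool × Bool × Fin v): `some (false, c)` is Alice's part of the constraint c, `some (true, c)` Bob's
part, `none` a dummy part joined to everything.  Vertices: dec : Fin N → Option (Fin v → Fin n); a vertex of the part of (pl, c)
is the tuple f of letters of player pl in the cells of c; vertices with dec = none are isolated from the proper parts.
Ok g p p' f f': same player: the tuples agree on common cells; different players and the same constraint c: the colours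
satisfy c; different players and different constraints: nothing.
-/

namespace Pool.Agent.H35.CL

open Finset

/-- Compatibility of the tuples `f` (in the part `p`) and `f'` (in the part `p'`). -/
def Ok {v n : ℕ} (g : Fin v × Fin v → Fin n → Fin n → Bool) (p p' : Bool × Bool × Fin v) (f f' : Fin v → Fin n) : Prop :=
  if p.1 = p'.1 then ∀ k k', cell p.2 k = cell p'.2 k' → f k = f' k'
  else p.2 = p'.2 →
    par (fun k => if p.1 then g (cell p.2 k) (f' k) (f k) else g (cell p.2 k) (f k) (f' k)) = tgt p.2

theorem Ok.symm {v n : ℕ} {g : Fin v × Fin v → Fin n → Fin n → Bool} {p p' : Bool × Bool × Fin v} {f f' : Fin v → Fin n}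
    (h : Ok g p p' f f') : Ok g p' p f' f := by
  unfold Ok at *
  by_cases hp : p.1 = p'.1
  · rw [if_pos hp] at h
    rw [if_pos hp.symm]
    exact fun k k' hk => (h k' k hk.symm).symm
  · rw [if_neg hp] at h
    rw [if_neg (fun h' => hp h'.symm)]
    intro h2
    have h3 := h h2.symm
    rw [h2]
    rw [← h3]
    congr 1
    funext k
    rcases p with ⟨_ | _, pc⟩ <;> rcases p' with ⟨_ | _, pc'⟩ <;> simp_all

/-- The graph. -/
def cliqueGraph {K N v n : ℕ} (g : Fin v × Fin v → Fin n → Fin n → Bool) (e : Fin K → Option (Bool × Bool × Fin v))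
    (dec : Fin N → Option (Fin v → Fin n)) : SimpleGraph (Fin K × Fin N) where
  Adj x y := x.1 ≠ y.1 ∧ ∀ p p', e x.1 = some p → e y.1 = some p' → ∃ f f', dec x.2 = some f ∧ dec y.2 = some f' ∧
    Ok g p p' f f'
  symm := ⟨fun x y h => ⟨h.1.symm, fun p p' hp hp' => by
    obtain ⟨f, f', h1, h2, h3⟩ := h.2 p' p hp' hp
    exact ⟨f', f, h2, h1, h3.symm⟩⟩⟩
  loopless := ⟨fun x h => h.1 rfl⟩

end Pool.Agent.H35.CL
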