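import Pool.Agent.H35.CL.GrD

/-!
# The graph has no K-clique

PROOF.  A K-clique s has one vertex u i in every part i (no edges inside a part, so Prod.fst is injective on s and the image of s under
Prod.fst has K elements, i.e. is everything).  For p choose i p with e (i p) = some p (he); for p ≠ p' we have i p ≠ i p', so
(i p, u (i p)) ~ (i p', u (i p')) and dec (u (i p)) = some (F p) (there is some p' ≠ p).
x (i, k) := F (false, (false, i)) k, y (i, k) := F (true, (false, i)) k.  For all c, k: F (false, c) k = x (cell c k) (rows: definition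
of cell; column j: row k and column j agree on the common cell (k, j), by Ok for the parts (false, (false, k)), (false, (true, j))),
and F (true, c) k = y (cell c k) likewise.  viol_exists for z e = g e (x e) (y e) gives a violated c, contradiction to the edge
between the parts (false, c) and (true, c).
-/

namespace Pool.Agent.H35.CL

open Finset

theorem cliqueGraph_free {K N v n : ℕ} (h2 : 2 ≤ v) (g : Fin v × Fin v → Fin n → Fin n → Bool)
    (e : Fin K → Option (Bool × Bool × Fin v)) (he : ∀ p, ∃ i, e i = some p) (dec : Fin N → Option (Fin v → Fin n)) :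
    (cliqueGraph g e dec).CliqueFree K := by
  classical
  intro s hs
  obtain ⟨hc, hcard⟩ := hs
  -- one vertex in every part
  have hinj : Set.InjOn Prod.fst (s : Set (Fin K × Fin N)) := by
    intro x hx y hy hxy
    by_contra hne
    exact (hc hx hy hne).1 hxy
  have himg : s.image Prod.fst = univ := by
    apply eq_univ_of_card
    rw [card_image_of_injOn hinj, hcard, Fintype.card_fin]
  have hu : ∀ i, ∃ a, (i, a) ∈ s := by
    intro i
    have : i ∈ s.image Prod.fst := by rw [himg]; exact mem_univ _
    obtain ⟨x, hx, rfl⟩ := mem_image.1 this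
    exact ⟨x.2, hx⟩
  choose u hu using hu
  have hadj : ∀ i j, i ≠ j → (cliqueGraph g e dec).Adj (i, u i) (j, u j) := fun i j hij =>
    hc (hu i) (hu j) fun h => hij (congrArg Prod.fst h)
  choose I hI using he
  have hIne : ∀ p p', p ≠ p' → I p ≠ I p' := by
    intro p p' h h'
    apply h
    have := hI p
    rw [h', hI p'] at this
    exact (Option.some.inj this).symm
  have hedge : ∀ p p', p ≠ p' → ∃ f f', dec (u (I p)) = some f ∧ dec (u (I p')) = some f' ∧ Ok g p p' f f' :=
    fun p p' h => (hadj _ _ (hIne p p' h)).2 p p' (hI p) (hI p')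
  have hF : ∀ p, ∃ f, dec (u (I p)) = some f := by
    intro p
    obtain ⟨f, _, h, _⟩ := hedge p (!p.1, p.2) (fun h => by
      have := congrArg Prod.fst h
      simp at this)
    exact ⟨f, h⟩
  choose F hF using hF
  have hOk : ∀ p p', p ≠ p' → Ok g p p' (F p) (F p') := by
    intro p p' h
    obtain ⟨f, f', h1, h3, h4⟩ := hedge p p' h
    rw [hF p] at h1
    rw [hF p'] at h3
    rw [Option.some.inj h1, Option.some.inj h3]
    exact h4
  let X : Bool → Fin v × Fin v → Fin n := fun pl ik => F (pl, (false, ik.1)) ik.2
  have hX : ∀ pl c k, F (pl, c) k = X pl (cell c k) := by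
    rintro pl ⟨_ | _, j⟩ k
    · rfl
    · have h1 := hOk (pl, (true, j)) (pl, (false, k)) (by simp)
      unfold Ok at h1
      rw [if_pos rfl] at h1
      have h3 := h1 k j (by simp [cell])
      rw [h3]
      simp [X, cell]
  obtain ⟨c, hcv⟩ := viol_exists (by omega : 0 < v) (fun ij => g ij (X false ij) (X true ij))
  have h1 := hOk (false, c) (true, c) (by simp)
  unfold Ok at h1
  rw [if_neg (by simp)] at h1
  have h3 := h1 rfl
  apply hcv
  rw [← h3]
  congr 1
  funext k
  simp only [hX]
  simp

end Pool.Agent.H35.CL
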