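import Pool.Agent.H96.CL.Adv

/-!
# The lower bound for triangle dags (Section 6 (iii) of /team-store/H35_CLIQUE.md)
-/

namespace Pool.Agent.H35.CL

open Finset

variable {ι α : Type} [Fintype ι] [DecidableEq ι] [Fintype α] [DecidableEq α]

theorem dag_lower {t : ℕ} {g : ι → α → α → Bool} (hg : Disp t g) (hg' : Disp t (sw g))
    {H : Finset ι → (ι → Bool) → Prop} {w : ℕ} (hfam : Fam H w) {h₀ d q : ℕ} (hw : 2 * d ≤ w)
    (hd : d < Fintype.card ι)
    (hh₀ : 2 ^ Fintype.card ι * (2 * Fintype.card ι * t + 1) ^ Fintype.card ι *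
      (t * (Fintype.card ι + 8 * t * q * (2 ^ Fintype.card ι * (t * Fintype.card ι + 1))) + 1) < h₀)
    (hq : 0 < q)
    (S : ℕ) (a b : ℕ → (ι → α) → ℝ)
    (hstep : ∀ s < S, ∃ M : Finset ℕ, M.card ≤ q ∧ (∀ s' ∈ M, s' < s) ∧ ∃ viol : (ι → Bool) → Prop,
      Flex H viol ∧ ∀ x y, a s x < b s y → (∃ s' ∈ M, a s' x < b s' y) ∨ viol (col g x y))
    (hlast : ∃ r < S, ∀ x y, a r x < b r y) :
    Fintype.card α ^ (d + 1) ≤ 4 * S * h₀ ^ (d + 1) := by
  obtain ⟨r, hr, hlast⟩ := hlast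
  have ht : 0 < t := by
    rcases Nat.eq_zero_or_pos t with h0 | h0
    · subst h0
      obtain ⟨k, _⟩ := hg ∅ (fun k => k.elim0) (fun k => k.elim0) (fun k => k.elim0) (by simp) (by simp)
      exact k.elim0
    · exact h0
  have hM : ∀ s, ∃ (M : Finset ℕ) (viol : (ι → Bool) → Prop), s < S → (M.card ≤ q ∧ (∀ s' ∈ M, s' < s) ∧
      Flex H viol ∧ ∀ x y, a s x < b s y → (∃ s' ∈ M, a s' x < b s' y) ∨ viol (col g x y)) := by
    intro s
    by_cases hs : s < S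
    · obtain ⟨M, h1, h2, viol, h3, h4⟩ := hstep s hs
      exact ⟨M, viol, fun _ => ⟨h1, h2, h3, h4⟩⟩
    · exact ⟨∅, fun _ => False, fun h => absurd h hs⟩
  choose M viol hMv using hM
  by_contra hcon
  push Not at hcon
  have hle : 4 * (r + 1) * h₀ ^ (d + 1) ≤ 4 * S * h₀ ^ (d + 1) :=
    Nat.mul_le_mul_right _ (Nat.mul_le_mul_left _ hr)
  exact no_refutation g H w t q d h₀ (r + 1) hfam ht hg hg' hw hd hh₀ hq (Nat.succ_pos r) (lt_of_le_of_lt hle hcon) a b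
    M (fun s hs => (hMv s (by omega)).1) (fun s hs => (hMv s (by omega)).2.1) viol
    (fun s hs => (hMv s (by omega)).2.2.1) (fun s hs => (hMv s (by omega)).2.2.2) hlast

end Pool.Agent.H35.CL
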