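import Pool.Agent.H35.CL.Defs

/-!
# The base formula: a v x v matrix with even columns, even rows except row 0 (Section 1 of /team-store/H35_CLIQUE.md)
(statements of helper35's Mat.lean and MatF.lean, proved)
-/

namespace Pool.Agent.H35.CL

open Finset

/-- The `k`-th cell of the constraint `c`: `(i, k)` for row `i`, `(k, j)` for column `j`. -/
def cell {v : ℕ} (c : Bool × Fin v) (k : Fin v) : Fin v × Fin v := if c.1 then (k, c.2) else (c.2, k)

/-- The required parity: odd for row 0, even for the other rows and the columns. -/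
def tgt {v : ℕ} (c : Bool × Fin v) : ZMod 2 := if c.1 = false ∧ c.2.val = 0 then 1 else 0

/-- The parity of `v` bits. -/
def par {v : ℕ} (b : Fin v → Bool) : ZMod 2 := ∑ k, (if b k then 1 else 0)

/-- The matrix `z` violates the constraint `c`. -/
def viol {v : ℕ} (c : Bool × Fin v) (z : Fin v × Fin v → Bool) : Prop := par (fun k => z (cell c k)) ≠ tgt c

/-- Less than half of the entries of row `i` are in `D`. -/
def GoodRow {v : ℕ} (D : Finset (Fin v × Fin v)) (i : Fin v) : Prop := 2 * (univ.filter (fun j => (i, j) ∈ D)).card < v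

/-- The family: `ρ` extends from `D` to a matrix violating exactly one constraint, a good row. -/
def MatH (v w : ℕ) (D : Finset (Fin v × Fin v)) (ρ : Fin v × Fin v → Bool) : Prop :=
  D.card ≤ w ∧ ∃ z : Fin v × Fin v → Bool, (∀ e ∈ D, z e = ρ e) ∧ ∃ i, GoodRow D i ∧ ∀ c, viol c z ↔ c = (false, i)

theorem viol_exists {v : ℕ} (hv : 0 < v) (z : Fin v × Fin v → Bool) : ∃ c, viol c z := by
  by_contra hcon
  unfold viol at hcon
  push Not at hcon
  have h1 : ∑ i : Fin v, par (fun k => z (cell (false, i) k)) = 1 := by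
    rw [Finset.sum_congr rfl (fun i _ => hcon (false, i))]
    rw [Finset.sum_eq_single (⟨0, hv⟩ : Fin v)]
    · simp [tgt]
    · intro i _ hi
      have : i.val ≠ 0 := fun h => hi (Fin.ext h)
      simp [tgt, this]
    · intro h; exact absurd (Finset.mem_univ _) h
  have h2 : ∑ j : Fin v, par (fun k => z (cell (true, j) k)) = 0 := by
    apply Finset.sum_eq_zero
    intro j _
    rw [hcon (true, j)]
    simp [tgt]
  have h3 : ∑ i : Fin v, par (fun k => z (cell (false, i) k)) = ∑ j : Fin v, par (fun k => z (cell (true, j) k)) := by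
    unfold par
    rw [Finset.sum_comm]
    rfl
  rw [h1, h2] at h3
  exact absurd h3 (by decide)

theorem goodRow_mono {v : ℕ} {D D' : Finset (Fin v × Fin v)} (h : D ⊆ D') {i : Fin v} (hi : GoodRow D' i) :
    GoodRow D i := by
  unfold GoodRow at *
  have : (univ.filter (fun j => (i, j) ∈ D)).card ≤ (univ.filter (fun j => (i, j) ∈ D')).card := by
    apply Finset.card_le_card
    intro j hj
    rw [Finset.mem_filter] at hj ⊢
    exact ⟨hj.1, h hj.2⟩
  omega

theorem sum_rows {v : ℕ} (D : Finset (Fin v × Fin v)) : ∑ i, (univ.filter (fun j => (i, j) ∈ D)).card = D.card := by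
  rw [Finset.card_eq_sum_card_fiberwise (f := Prod.fst) (s := D) (t := univ) (fun _ _ => Finset.mem_univ _)]
  apply Finset.sum_congr rfl
  intro i _
  apply Finset.card_bij (fun j _ => (i, j))
  · intro j hj
    rw [Finset.mem_filter] at hj ⊢
    exact ⟨hj.2, rfl⟩
  · intro j _ j' _ h
    exact (Prod.ext_iff.1 h).2
  · rintro ⟨i', j⟩ h
    rw [Finset.mem_filter] at h
    obtain ⟨h1, h2⟩ := h
    simp only at h2
    subst h2
    exact ⟨j, Finset.mem_filter.2 ⟨Finset.mem_univ _, h1⟩, rfl⟩

theorem exists_two_goodRow {v : ℕ} (hv : 0 < v) (D : Finset (Fin v × Fin v)) (hD : 2 * D.card ≤ v * (v - 2))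
    (h2 : 2 ≤ v) : ∃ i i', i ≠ i' ∧ GoodRow D i ∧ GoodRow D i' := by
  classical
  have h1 : (univ.filter (fun i : Fin v => GoodRow D i)).card +
      (univ.filter (fun i : Fin v => ¬ GoodRow D i)).card = v := by
    rw [Finset.card_filter_add_card_filter_not, Finset.card_univ, Fintype.card_fin]
  have h3 : (univ.filter (fun i : Fin v => ¬ GoodRow D i)).card * v ≤ 2 * D.card := by
    rw [← sum_rows D, Finset.mul_sum]
    calc (univ.filter (fun i : Fin v => ¬ GoodRow D i)).card * v
        = ∑ i ∈ univ.filter (fun i : Fin v => ¬ GoodRow D i), v := by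
          rw [Finset.sum_const, smul_eq_mul]
      _ ≤ ∑ i ∈ univ.filter (fun i : Fin v => ¬ GoodRow D i), 2 * (univ.filter (fun j => (i, j) ∈ D)).card := by
          apply Finset.sum_le_sum
          intro i hi
          exact not_lt.1 (Finset.mem_filter.1 hi).2
      _ ≤ ∑ i, 2 * (univ.filter (fun j => (i, j) ∈ D)).card := Finset.sum_le_sum_of_subset (Finset.filter_subset _ _)
  have h4 : (univ.filter (fun i : Fin v => ¬ GoodRow D i)).card ≤ v - 2 := by
    have h5 : v * (univ.filter (fun i : Fin v => ¬ GoodRow D i)).card ≤ v * (v - 2) := by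
      rw [mul_comm]; exact h3.trans hD
    exact Nat.le_of_mul_le_mul_left h5 hv
  have h5 : 1 < (univ.filter (fun i : Fin v => GoodRow D i)).card := by omega
  obtain ⟨i, hi, i', hi', hne⟩ := Finset.one_lt_card.1 h5
  exact ⟨i, i', hne, (Finset.mem_filter.1 hi).2, (Finset.mem_filter.1 hi').2⟩

theorem bit_xor (a b : Bool) : (if (xor a b) then (1 : ZMod 2) else 0) = (if a then 1 else 0) + (if b then 1 else 0) := by
  cases a <;> cases b <;> decide

theorem par_row {v : ℕ} (z : Fin v × Fin v → Bool) (i i' j i1 : Fin v) :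
    par (fun k => xor (xor (z (cell (false, i1) k)) (decide (cell (false, i1) k = (i, j))))
      (decide (cell (false, i1) k = (i', j)))) =
    par (fun k => z (cell (false, i1) k)) + (if i1 = i then 1 else 0) + (if i1 = i' then 1 else 0) := by
  unfold par
  simp only [bit_xor, Finset.sum_add_distrib, cell, decide_eq_true_eq]
  congr 1
  · congr 1
    by_cases h : i1 = i <;> simp [h]
  · by_cases h : i1 = i' <;> simp [h]

theorem par_col {v : ℕ} (z : Fin v × Fin v → Bool) (i i' j j1 : Fin v) :
    par (fun k => xor (xor (z (cell (true, j1) k)) (decide (cell (true, j1) k = (i, j))))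
      (decide (cell (true, j1) k = (i', j)))) = par (fun k => z (cell (true, j1) k)) := by
  unfold par
  simp only [bit_xor, Finset.sum_add_distrib, cell, decide_eq_true_eq]
  rw [add_assoc]
  have h0 : (∑ x : Fin v, if (x, j1) = (i, j) then (1 : ZMod 2) else 0) +
      ∑ x : Fin v, (if (x, j1) = (i', j) then (1 : ZMod 2) else 0) = 0 := by
    by_cases h : j1 = j
    · simp [h]
      decide
    · simp [h]
  simp only [if_true]
  rw [h0, add_zero]

theorem zmod2_flip (X Y : ZMod 2) : X + 1 ≠ Y ↔ X = Y := by
  revert X Y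
  decide

theorem move {v : ℕ} (D : Finset (Fin v × Fin v)) (i i' : Fin v) (hi : GoodRow D i) (hi' : GoodRow D i')
    (z : Fin v × Fin v → Bool) (hz : ∀ c, viol c z ↔ c = (false, i)) :
    ∃ z', (∀ e ∈ D, z' e = z e) ∧ ∀ c, viol c z' ↔ c = (false, i') := by
  by_cases hii : i = i'
  · subst hii
    exact ⟨z, fun _ _ => rfl, hz⟩
  obtain ⟨j, hj, hj'⟩ : ∃ j, (i, j) ∉ D ∧ (i', j) ∉ D := by
    by_contra hcon
    push Not at hcon
    have h1 : (univ : Finset (Fin v)) ⊆ univ.filter (fun j => (i, j) ∈ D) ∪ univ.filter (fun j => (i', j) ∈ D) := by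
      intro j _
      by_cases h : (i, j) ∈ D
      · exact Finset.mem_union_left _ (Finset.mem_filter.2 ⟨Finset.mem_univ _, h⟩)
      · exact Finset.mem_union_right _ (Finset.mem_filter.2 ⟨Finset.mem_univ _, hcon j h⟩)
    have h2 := (Finset.card_le_card h1).trans (Finset.card_union_le _ _)
    rw [Finset.card_univ, Fintype.card_fin] at h2
    unfold GoodRow at hi hi'
    omega
  refine ⟨fun e => xor (xor (z e) (decide (e = (i, j)))) (decide (e = (i', j))), ?_, ?_⟩
  · intro e he
    have h1 : e ≠ (i, j) := fun h => hj (h ▸ he)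
    have h2 : e ≠ (i', j) := fun h => hj' (h ▸ he)
    simp [h1, h2]
  · rintro ⟨b, i1⟩
    have hz1 := hz (b, i1)
    unfold viol at hz1 ⊢
    cases b with
    | false =>
      rw [par_row]
      by_cases h1 : i1 = i
      · subst h1
        have h2 : par (fun k => z (cell (false, i1) k)) ≠ tgt (false, i1) := hz1.2 rfl
        rw [if_pos rfl, if_neg hii, add_zero]
        constructor
        · intro h3
          exact absurd ((zmod2_flip _ _).1 h3) h2
        · intro h3
          exact absurd (Prod.ext_iff.1 h3).2 hii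
      · rw [if_neg h1, add_zero]
        have h2 : par (fun k => z (cell (false, i1) k)) = tgt (false, i1) := by
          by_contra h3
          exact h1 (Prod.ext_iff.1 (hz1.1 h3)).2
        by_cases h4 : i1 = i'
        · subst h4
          rw [if_pos rfl]
          constructor
          · intro _; rfl
          · intro _
            exact (zmod2_flip _ _).2 h2
        · rw [if_neg h4, add_zero]
          constructor
          · intro h3
            exact absurd h2 h3
          · intro h3
            exact absurd (Prod.ext_iff.1 h3).2 h4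
    | true =>
      rw [par_col]
      constructor
      · intro h3
        exact absurd (Prod.ext_iff.1 (hz1.1 h3)).1 (by simp)
      · intro h3
        exact absurd (Prod.ext_iff.1 h3).1 (by simp)

theorem mat_fam {v w : ℕ} (h2 : 2 ≤ v) (hw : 2 * w ≤ v * (v - 2)) : Fam (MatH v w) w where
  empty := by
    refine ⟨fun _ => false, by simp, fun _ => false, fun e _ => rfl, ⟨0, by omega⟩, ?_, ?_⟩
    · simp [GoodRow]; omega
    · rintro ⟨b, i⟩
      unfold viol par tgt
      simp only [Bool.false_eq_true, if_false, Finset.sum_const_zero]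
      constructor
      · intro h
        by_cases h1 : b = false ∧ i.val = 0
        · rw [h1.1]
          congr 1
          exact Fin.ext h1.2
        · rw [if_neg h1] at h
          exact absurd rfl h
      · intro h
        have h1 := Prod.ext_iff.1 h
        simp only at h1
        rw [if_pos ⟨h1.1, by rw [h1.2]⟩]
        decide
  res := by
    intro D D' ρ ρ' hD hρ h
    obtain ⟨h1, z, hz, i, hi, hc⟩ := h
    refine ⟨(Finset.card_le_card hD).trans h1, z, fun e he => ?_, i, goodRow_mono hD hi, hc⟩
    rw [hz e (hD he), hρ e he]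
  ext := by
    intro D D' ρ h hD hw'
    obtain ⟨h1, z, hz, i, hi, hc⟩ := h
    obtain ⟨i', _, _, hi', _⟩ := exists_two_goodRow (by omega) D' (by omega) h2
    obtain ⟨z', hz', hc'⟩ := move D i i' hi (goodRow_mono hD hi') z hc
    exact ⟨z', fun e he => by rw [hz' e he, hz e he], hw', z', fun _ _ => rfl, i', hi', hc'⟩

theorem mat_flex {v w : ℕ} (h2 : 2 ≤ v) (hw : 2 * w ≤ v * (v - 2)) (c : Bool × Fin v) : Flex (MatH v w) (viol c) := by
  intro D ρ h
  obtain ⟨h1, z, hz, i, hi, hc⟩ := h
  by_cases hci : c = (false, i)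
  · obtain ⟨i1, i2, hne, hi1, hi2⟩ := exists_two_goodRow (by omega) D (by omega) h2
    obtain ⟨i', hi', hne'⟩ : ∃ i', GoodRow D i' ∧ i' ≠ i := by
      by_cases h3 : i1 = i
      · exact ⟨i2, hi2, fun h4 => hne (h3.trans h4.symm)⟩
      · exact ⟨i1, hi1, h3⟩
    obtain ⟨z', hz', hc'⟩ := move D i i' hi hi' z hc
    refine ⟨z', fun e he => by rw [hz' e he, hz e he], fun h4 => ?_⟩
    have h5 := (hc' c).1 h4
    rw [hci] at h5
    exact hne' (Prod.ext_iff.1 h5).2.symm
  · exact ⟨z, hz, fun h4 => hci ((hc c).1 h4)⟩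

end Pool.Agent.H35.CL
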