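import Mathlib

/-!
# The parameters
-/

namespace Pool.Agent.H35.CL

open Finset

/-- The dispersion parameter. -/
def tt (m l : ℕ) : ℕ := 2 ^ m * (2 * m * l + 2 * m + 2)

/-- The parameter `h₀`. -/
def hh (m q t : ℕ) : ℕ := 2 ^ m * (2 * m * t + 1) ^ m * (t * (m + 8 * t * q * (2 ^ m * (t * m + 1))) + 1) + 1

end Pool.Agent.H35.CL
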