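import Mathlib

/-!
# The clique formula and its refutations

`G` is a graph on `Fin K × Fin N`: part `i` has the vertices `(i, 0), ..., (i, N-1)`.  A choice `u : Fin K → Fin N` takes one
vertex `(i, u i)` in every part `i`.
-/

namespace Pool.Agent.H35.CL

open Finset

/-- A refutation of the statement that some choice is a clique of `G`: lines `0 ≤ f s u`, each a sum of an arbitrary function of the vertices
chosen in the parts `A` and an arbitrary function of the vertices chosen in the other parts; every line is implied by
at most `q` earlier lines together with the edges between one pair of parts; some line is false for all choices. -/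
structure Refutation {K N : ℕ} (G : SimpleGraph (Fin K × Fin N)) (A : Finset (Fin K)) (q S : ℕ)
    (f : Fin S → (Fin K → Fin N) → ℝ) : Prop where
  split : ∀ s, ∃ f' f'' : (Fin K → Fin N) → ℝ, (∀ u u', (∀ i ∈ A, u i = u' i) → f' u = f' u') ∧
    (∀ u u', (∀ i ∉ A, u i = u' i) → f'' u = f'' u') ∧ ∀ u, f s u = f' u + f'' u
  step : ∀ s, ∃ (P : Finset (Fin S)) (i j : Fin K), P.card ≤ q ∧ (∀ p ∈ P, p < s) ∧ i ≠ j ∧
    ∀ u, f s u < 0 → G.Adj (i, u i) (j, u j) → ∃ p ∈ P, f p u < 0
  last : ∃ s, ∀ u, f s u < 0

/-- The assignment `z` satisfies the clause `C` (a set of literals, `(x, b)` says that the variable `x` has the value `b`). -/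
def Sat {X : Type} (z : X → Bool) (C : Finset (X × Bool)) : Prop := ∃ l ∈ C, z l.1 = l.2

/-- A (dag-like) resolution refutation with `S` clauses of the formula whose clauses are those `E` with `F E`: every clause is a clause of the
formula or contains a resolvent of two earlier clauses; the empty clause occurs. -/
structure ResolutionOf {X : Type} [DecidableEq X] (F : Finset (X × Bool) → Prop) (S : ℕ)
    (C : Fin S → Finset (X × Bool)) : Prop where
  step : ∀ s, F (C s) ∨ ∃ (p p' : Fin S) (x : X), p < s ∧ p' < s ∧
    (C p).erase (x, true) ∪ (C p').erase (x, false) ⊆ C s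
  last : ∃ s, C s = ∅

/-- A semantic cutting planes refutation with `S` lines of the same formula: linear inequalities `b s ≤ ∑ x, c s x * z x` with arbitrary
real coefficients in the 0/1 variables `z x`; every line is implied, for all 0/1 assignments, by at most `q` earlier lines
and one clause of the formula; some line is false for all 0/1 assignments. -/
structure CuttingPlanesOf {X : Type} [Fintype X] (F : Finset (X × Bool) → Prop) (q S : ℕ) (c : Fin S → X → ℝ)
    (b : Fin S → ℝ) : Prop where
  step : ∀ s, ∃ (P : Finset (Fin S)) (E : Finset (X × Bool)), P.card ≤ q ∧ (∀ p ∈ P, p < s) ∧ F E ∧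
    ∀ z : X → Bool, Sat z E → (∀ p ∈ P, b p ≤ ∑ x, if z x then c p x else 0) → b s ≤ ∑ x, if z x then c s x else 0
  last : ∃ s, ∀ z : X → Bool, (∑ x, if z x then c s x else 0) < b s

/-- The clauses of the unary `k`-clique formula of the graph `G`; the variable `(i, v)` says that the `i`-th vertex of the clique is `v`. -/
inductive KClique {V : Type} [Fintype V] [DecidableEq V] (G : SimpleGraph V) (k : ℕ) :
    Finset ((Fin k × V) × Bool) → Prop
  | chosen (i : Fin k) : KClique G k (univ.image (fun v : V => ((i, v), true)))
  | single (i : Fin k) (v w : V) : v ≠ w → KClique G k {((i, v), false), ((i, w), false)}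
  | edge (i j : Fin k) (v w : V) : i ≠ j → ¬ G.Adj v w → KClique G k {((i, v), false), ((j, w), false)}

end Pool.Agent.H35.CL
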