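import Pool.Agent.H35.CL.Main
import Pool.Agent.H35.CL.Mat
import Pool.Agent.H35.CL.Stmt

/-!
# The lower bound for refutations (proof by helper2)
-/

namespace Pool.Agent.H35.CL

open Finset

theorem refutation_lower {K N v n w d t h₀ q : ℕ} (h2 : 2 ≤ v) (hn : 0 < n) (hw : 2 * w ≤ v * (v - 2)) (hd : 2 * d ≤ w)
    (hh₀ : 2 ^ (v * v) * (2 * (v * v) * t + 1) ^ (v * v) *
      (t * (v * v + 8 * t * q * (2 ^ (v * v) * (t * (v * v) + 1))) + 1) < h₀) (hq : 0 < q)
    (g : Fin v × Fin v → Fin n → Fin n → Bool) (hg : Disp t g) (hg' : Disp t (sw g))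
    (G : SimpleGraph (Fin K × Fin N)) (A : Finset (Fin K))
    (u : (Fin v × Fin v → Fin n) → (Fin v × Fin v → Fin n) → Fin K → Fin N)
    (hA : ∀ x y y', ∀ i ∈ A, u x y i = u x y' i) (hB : ∀ x x' y, ∀ i ∉ A, u x y i = u x' y i)
    (hu : ∀ i j, i ≠ j → (∀ x y, G.Adj (i, u x y i) (j, u x y j)) ∨
        ∃ c, ∀ x y, ¬ G.Adj (i, u x y i) (j, u x y j) → viol c (fun e => g e (x e) (y e)))
    {S : ℕ} {f : Fin S → (Fin K → Fin N) → ℝ} (h : Refutation G A q S f) :
    n ^ (d + 1) ≤ 4 * S * h₀ ^ (d + 1) := by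
  classical
  have hm : Fintype.card (Fin v × Fin v) = v * v := by simp
  have hn0 : 0 < n := hn
  let x0 : Fin v × Fin v → Fin n := fun _ => ⟨0, hn0⟩
  choose f' f'' hf' hf'' hf using h.split
  let a : ℕ → (Fin v × Fin v → Fin n) → ℝ := fun s x => if hs : s < S then f' ⟨s, hs⟩ (u x x0) else 0
  let b : ℕ → (Fin v × Fin v → Fin n) → ℝ := fun s y => if hs : s < S then - f'' ⟨s, hs⟩ (u x0 y) else 0
  have hab : ∀ (s : Fin S) x y, a s x < b s y ↔ f s (u x y) < 0 := by
    intro s x y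
    have h1 : f' s (u x x0) = f' s (u x y) := hf' s _ _ fun i hi => hA x x0 y i hi
    have h3 : f'' s (u x0 y) = f'' s (u x y) := hf'' s _ _ fun i hi => hB x0 x y i hi
    simp only [a, b, s.2, dif_pos, Fin.eta]
    rw [h1, h3, hf s (u x y)]
    constructor <;> intro h <;> linarith
  have hwv : 2 * w ≤ v * v := hw.trans (Nat.mul_le_mul_left _ (Nat.sub_le _ _))
  have hvv : 0 < v * v := Nat.mul_pos (by omega) (by omega)
  have key := dag_lower (ι := Fin v × Fin v) (α := Fin n) hg hg' (mat_fam h2 hw) hd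
    (by rw [hm]; omega) (by rw [hm]; exact hh₀) hq S a b (by
      intro s hs
      obtain ⟨P, i, j, hP, hPs, hij, hstep⟩ := h.step ⟨s, hs⟩
      refine ⟨P.image Fin.val, card_image_le.trans hP, ?_, ?_⟩
      · intro s' hs'
        obtain ⟨p, hp, rfl⟩ := mem_image.1 hs'
        exact hPs p hp
      · have hmem : ∀ x y, (∃ p ∈ P, f p (u x y) < 0) → ∃ s' ∈ P.image Fin.val, a s' x < b s' y := by
          rintro x y ⟨p, hp, hlt⟩
          exact ⟨p.1, mem_image.2 ⟨p, hp, rfl⟩, (hab p x y).2 hlt⟩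
        rcases hu i j hij with hadj | ⟨c, hc⟩
        · refine ⟨fun _ => False, fun D ρ _ => ⟨ρ, fun _ _ => rfl, fun h => h⟩, fun x y hxy => ?_⟩
          left
          exact hmem x y (hstep _ ((hab ⟨s, hs⟩ x y).1 hxy) (hadj x y))
        · refine ⟨viol c, mat_flex h2 hw c, fun x y hxy => ?_⟩
          by_cases hadj : G.Adj (i, u x y i) (j, u x y j)
          · left
            exact hmem x y (hstep _ ((hab ⟨s, hs⟩ x y).1 hxy) hadj)
          · right
            exact hc x y hadj) (by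
      obtain ⟨r, hr⟩ := h.last
      exact ⟨r, r.2, fun x y => (hab r x y).2 (hr _)⟩)
  simpa using key

end Pool.Agent.H35.CL
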